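import Pool.Agent.LHF.EADefs
import Pool.Agent.LHF.Final

set_option autoImplicit false

namespace Pool.Agent.Results.MP_7892f8_al.EAGroups

/-- The conjecture for elementary amenable groups: if an elementary amenable group has a finite
symmetric generating set whose Cayley graph has a finite-dimensional space of Lipschitz harmonic
real functions, then the group has a nilpotent subgroup of finite index. Apart from the
hypothesis of elementary amenability this is word for word the frozen statement. -/
theorem result :
    ∀ (G : Type) [Group G] (_hEA : Pool.Agent.LHF.ElementaryAmenable G inferInstance)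
      (S : Finset G),
      (∀ s ∈ S, s⁻¹ ∈ S) →
      Subgroup.closure (S : Set G) = ⊤ →
      (∃ V : Submodule ℝ (G → ℝ), FiniteDimensional ℝ V ∧
        ∀ f : G → ℝ,
          (∀ g : G, ∑ s ∈ S, f (g * s) = (S.card : ℝ) * f g) →
          (∃ C : ℝ, ∀ g : G, ∀ s ∈ S, |f (g * s) - f g| ≤ C) →
          f ∈ V) →
      ∃ H : Subgroup G, H.FiniteIndex ∧ Group.IsNilpotent ↥H :=
  fun G _ hEA S h1 h2 h3 => Pool.Agent.LHF.theoremA G hEA S h1 h2 h3

end Pool.Agent.Results.MP_7892f8_al.EAGroups
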