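import Pool.Agent.LO86.CMain

set_option autoImplicit false

namespace Pool.Agent.Results.MP_7892f8_al.LinearCuts

/-- The points `s₁ ⋯ s_k • x` with `k ≤ R` and all `s_i` in `S`: the ball of radius `R` around `x`
in the Schreier graph of the orbit of `x`. -/
def Orb {G X : Type} [Group G] [MulAction G X] (S : Finset G) (x : X) (R : ℕ) : Set X :=
  {y : X | ∃ l : List G, (∀ s ∈ l, s ∈ S) ∧ l.length ≤ R ∧ l.prod • x = y}

/-- The points of `B` that some element of `S` moves out of `B`. -/
def Bdry {G X : Type} [Group G] [MulAction G X] (S : Finset G) (B : Set X) : Set X :=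
  {y : X | y ∈ B ∧ ∃ s ∈ S, s • y ∉ B}

/-- Let `G` be a group with a finite symmetric generating set `S` for which the space of Lipschitz
harmonic functions is finite dimensional (the hypothesis of the frozen statement). Let `G` act on
a set `X` such that, uniformly in `x`, the balls `Orb S x R` grow at most polynomially and
arbitrarily large balls can be cut off by `O(R)` points: there is a constant `C` such that for
every `R₀` there is an `R₁` such that for every `x` there are an `R` with `R₀ ≤ R ≤ R₁` and a set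
`B` with at most `C * R` boundary points and `Orb S x R ⊆ B ⊆ Orb S x R₁`.
Then `G` modulo the kernel of the action has a nilpotent subgroup of finite index. -/
theorem result :
    ∀ (G : Type) [Group G] (S : Finset G),
      (∀ s ∈ S, s⁻¹ ∈ S) →
      Subgroup.closure (S : Set G) = ⊤ →
      (∃ V : Submodule ℝ (G → ℝ), FiniteDimensional ℝ V ∧
        ∀ f : G → ℝ,
          (∀ g : G, ∑ s ∈ S, f (g * s) = (S.card : ℝ) * f g) →
          (∃ C : ℝ, ∀ g : G, ∀ s ∈ S, |f (g * s) - f g| ≤ C) →
          f ∈ V) →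
      ∀ (X : Type) [MulAction G X],
        (∃ C d : ℕ, ∀ R : ℕ, 1 ≤ R → ∀ x : X, (Orb S x R).ncard ≤ C * R ^ d) →
        (∃ C : ℕ, ∀ R₀ : ℕ, ∃ R₁ : ℕ, ∀ x : X, ∃ R : ℕ, R₀ ≤ R ∧ R ≤ R₁ ∧ ∃ B : Set X,
          Orb S x R ⊆ B ∧ B ⊆ Orb S x R₁ ∧ (Bdry S B).ncard ≤ C * R) →
        ∃ H : Subgroup (G ⧸ (MulAction.toPermHom G X).ker),
          H.FiniteIndex ∧ Group.IsNilpotent ↥H := by
  intro G _ S h1 h2 h3 X _ h4 h5
  exact Pool.Agent.LO86.main_cut S h1 h2 h3 h4 h5

end Pool.Agent.Results.MP_7892f8_al.LinearCuts
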