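import Pool.Agent.LHF.Final

set_option autoImplicit false

open scoped commutatorElement

namespace Pool.Agent.Results.MP_7892f8_al.NormalSubgroups

/-- A structure theorem for an arbitrary group `G` with a finite-dimensional space of Lipschitz
harmonic functions: every normal subgroup `N` with virtually nilpotent quotient `G ⧸ N` is
finitely generated, and the quotient `G ⧸ [N, N]` is again virtually nilpotent. -/
theorem result :
    ∀ (G : Type) [Group G] (S : Finset G),
      (∀ s ∈ S, s⁻¹ ∈ S) →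
      Subgroup.closure (S : Set G) = ⊤ →
      (∃ V : Submodule ℝ (G → ℝ), FiniteDimensional ℝ V ∧
        ∀ f : G → ℝ,
          (∀ g : G, ∑ s ∈ S, f (g * s) = (S.card : ℝ) * f g) →
          (∃ C : ℝ, ∀ g : G, ∀ s ∈ S, |f (g * s) - f g| ≤ C) →
          f ∈ V) →
      ∀ (N : Subgroup G) [N.Normal],
        (∃ H : Subgroup (G ⧸ N), H.FiniteIndex ∧ Group.IsNilpotent ↥H) →
        N.FG ∧ ∃ H : Subgroup (G ⧸ ⁅N, N⁆), H.FiniteIndex ∧ Group.IsNilpotent ↥H :=
  fun G _ S h1 h2 h3 N _ hN => Pool.Agent.LHF.theoremB G S h1 h2 h3 N hN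

end Pool.Agent.Results.MP_7892f8_al.NormalSubgroups
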