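import Pool.Agent.LHF81.Final

set_option autoImplicit false

namespace Pool.Agent.Results.MP_7892f8_al.SubexpKernels

/-- Let `G` be a group with a finite symmetric generating set `S` for which the space of Lipschitz
harmonic functions is finite dimensional (the hypothesis of the frozen statement). Let `H` be a
subgroup of finite index and `χ : H → ℤ` a surjective homomorphism. Then the kernel of `χ` is
finitely generated and at most subexponentially distorted in `G`: it has a finite generating set
`T` such that for every `c > 0` there is a constant `C` such that every element of the kernel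
that is a product of `n` elements of `S` is a product of at most `C * exp (c * n)` elements of
`T` and their inverses. -/
theorem result :
    ∀ (G : Type) [Group G] (S : Finset G),
      (∀ s ∈ S, s⁻¹ ∈ S) →
      Subgroup.closure (S : Set G) = ⊤ →
      (∃ V : Submodule ℝ (G → ℝ), FiniteDimensional ℝ V ∧
        ∀ f : G → ℝ,
          (∀ g : G, ∑ s ∈ S, f (g * s) = (S.card : ℝ) * f g) →
          (∃ C : ℝ, ∀ g : G, ∀ s ∈ S, |f (g * s) - f g| ≤ C) →
          f ∈ V) →
      ∀ H : Subgroup G, H.FiniteIndex →
        ∀ χ : H →* Multiplicative ℤ, Function.Surjective χ →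
          ∃ T : Finset H, Subgroup.closure (T : Set H) = χ.ker ∧
            ∀ c : ℝ, 0 < c → ∃ C : ℝ, ∀ l : List G, (∀ s ∈ l, s ∈ S) →
              ∀ y : H, y ∈ χ.ker → (y : G) = l.prod →
                ∃ l' : List H, (∀ t ∈ l', t ∈ T ∨ t⁻¹ ∈ T) ∧ l'.prod = y ∧
                  (l'.length : ℝ) ≤ C * Real.exp (c * l.length) := by
  intro G _ S h1 h2 h3 H hH χ hχ
  obtain ⟨⟨T, hT⟩, h4⟩ := Pool.Agent.LHF81.main S h1 h2 h3 H hH χ hχ
  exact ⟨T, hT, h4 T hT⟩

end Pool.Agent.Results.MP_7892f8_al.SubexpKernels
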